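import Mathlib
import Pool.Agent.W610.Plane

set_option autoImplicit false

/-!
# Nagata's inequality for exponentially large multiplicities

For every algebraically closed field `k` of any characteristic and every set of `r ≥ 2 ^ 1000`
generic points of the plane over `k`: every nonzero form of degree `d` vanishing to order at least
`m` at the points satisfies `d ≥ m √r`, provided that `1 ≤ m ≤ exp (r ^ (1 / 10) / 2) / 2`.
-/

namespace Pool.Agent.Results.MP_d0dfcd_ag.ExponentialMultiplicity

open MvPolynomial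

universe u

/-- The form `F` vanishes to order at least `m` at the point `(1 : p 0 : p 1)`: it lies in the
`m`-th power of the ideal of the point. -/
def VanishesAt {k : Type u} [Field k] (p : Fin 2 → k) (m : ℕ) (F : MvPolynomial (Fin 3) k) :
    Prop :=
  F ∈ (Ideal.span {X 1 - C (p 0) * X 0, X 2 - C (p 1) * X 0} :
    Ideal (MvPolynomial (Fin 3) k)) ^ m

/-- The least degree `a(S, m)` of a nonzero form vanishing to order at least `m` at every point
`(1 : P i 0 : P i 1)`. -/
noncomputable def leastDegree {k : Type u} [Field k] {r : ℕ} (P : Fin r → Fin 2 → k) (m : ℕ) : ℕ :=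
  sInf {d | ∃ F : MvPolynomial (Fin 3) k, F.IsHomogeneous d ∧ F ≠ 0 ∧ ∀ i, VanishesAt (P i) m F}

/-- The points `(1 : P i 0 : P i 1)` are generic: their affine coordinates are algebraically
independent over the prime field `⊥` of `k`. -/
def Generic {k : Type u} [Field k] {r : ℕ} (P : Fin r → Fin 2 → k) : Prop :=
  AlgebraicIndependent (⊥ : Subfield k) (fun ij : Fin r × Fin 2 => P ij.1 ij.2)

theorem result (k : Type u) [Field k] [IsAlgClosed k] (r : ℕ) (hr : 2 ^ 1000 ≤ r)
    (P : Fin r → Fin 2 → k) (hP : Generic P) (m : ℕ) (_hm0 : 0 < m)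
    (hm : (m : ℝ) ≤ Real.exp ((r : ℝ) ^ (1 / 10 : ℝ) / 2) / 2) :
    (m : ℝ) * Real.sqrt r ≤ leastDegree P m := by
  have hrR : (2 : ℝ) ^ 1000 ≤ r := by
    have h1 : ((2 ^ 1000 : ℕ) : ℝ) ≤ (r : ℝ) := Nat.cast_le.2 hr
    rwa [Nat.cast_pow, Nat.cast_ofNat] at h1
  exact Pool.Agent.W610.wald_exactE hrR hP m hm

end Pool.Agent.Results.MP_d0dfcd_ag.ExponentialMultiplicity
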