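import Mathlib
import Pool.Agent.W610.Plane

set_option autoImplicit false

/-!
# Waldschmidt constants of generic points in the plane: exponential precision

For every algebraically closed field `k` of any characteristic and every set of `r ≥ 2 ^ 1000`
generic points of the plane over `k`, the Waldschmidt constant `e` satisfies
`√r - exp (-r ^ (1 / 10)) ≤ e ≤ √r`.
-/

namespace Pool.Agent.Results.MP_d0dfcd_ag.ExponentialPrecision

open MvPolynomial Filter Topology

universe u

/-- The form `F` vanishes to order at least `m` at the point `(1 : p 0 : p 1)`: it lies in the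
`m`-th power of the ideal of the point. -/
def VanishesAt {k : Type u} [Field k] (p : Fin 2 → k) (m : ℕ) (F : MvPolynomial (Fin 3) k) :
    Prop :=
  F ∈ (Ideal.span {X 1 - C (p 0) * X 0, X 2 - C (p 1) * X 0} :
    Ideal (MvPolynomial (Fin 3) k)) ^ m

/-- The least degree `a(S, m)` of a nonzero form vanishing to order at least `m` at every point
`(1 : P i 0 : P i 1)`. -/
noncomputable def leastDegree {k : Type u} [Field k] {r : ℕ} (P : Fin r → Fin 2 → k) (m : ℕ) : ℕ :=
  sInf {d | ∃ F : MvPolynomial (Fin 3) k, F.IsHomogeneous d ∧ F ≠ 0 ∧ ∀ i, VanishesAt (P i) m F}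

/-- The points `(1 : P i 0 : P i 1)` are generic: their affine coordinates are algebraically
independent over the prime field `⊥` of `k`. -/
def Generic {k : Type u} [Field k] {r : ℕ} (P : Fin r → Fin 2 → k) : Prop :=
  AlgebraicIndependent (⊥ : Subfield k) (fun ij : Fin r × Fin 2 => P ij.1 ij.2)

theorem result (k : Type u) [Field k] [IsAlgClosed k] (r : ℕ) (hr : 2 ^ 1000 ≤ r)
    (P : Fin r → Fin 2 → k) (hP : Generic P) :
    ∃ e : ℝ, Tendsto (fun m : ℕ => (leastDegree P m : ℝ) / m) atTop (𝓝 e) ∧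
      Real.sqrt r - Real.exp (-(r : ℝ) ^ (1 / 10 : ℝ)) ≤ e ∧ e ≤ Real.sqrt r := by
  have hrR : (2 : ℝ) ^ 1000 ≤ r := by
    have h1 : ((2 ^ 1000 : ℕ) : ℝ) ≤ (r : ℝ) := Nat.cast_le.2 hr
    rwa [Nat.cast_pow, Nat.cast_ofNat] at h1
  clear hr
  have hr1 : (1 : ℝ) ≤ r := le_trans (one_le_pow₀ (by norm_num)) hrR
  refine Pool.Agent.H519R3.AC.exists_wald P fun m _ => ?_
  have h1 := Pool.Agent.W610.wald_lowE hrR hP m
  clear hrR
  obtain ⟨x, hx⟩ : ∃ x, x = Real.exp (-(r : ℝ) ^ (1 / 10 : ℝ)) := ⟨_, rfl⟩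
  rw [← hx] at h1 ⊢
  have hr0 : (0 : ℝ) < r := by linarith
  have hx0 : 0 < x := by rw [hx]; exact Real.exp_pos _
  have hX0 : 0 ≤ (r : ℝ) ^ (1 / 10 : ℝ) := Real.rpow_nonneg hr0.le _
  have hx1 : x ≤ 1 := by
    rw [hx, Real.exp_le_one_iff]
    linarith
  have hs1 : 1 ≤ Real.sqrt r := by
    rw [Real.one_le_sqrt]
    exact hr1
  have hss : Real.sqrt r * Real.sqrt r = r := Real.mul_self_sqrt hr0.le
  obtain ⟨a, ha⟩ : ∃ a : ℝ, a = (Pool.Agent.H519R3.AC.alp P m : ℝ) := ⟨_, rfl⟩
  have ha0 : 0 ≤ a := by rw [ha]; exact Nat.cast_nonneg _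
  rw [← ha] at h1 ⊢
  have hm0 : (0 : ℝ) ≤ m := Nat.cast_nonneg m
  have hy0 : 0 ≤ x / r := by positivity
  have hy1 : x / r ≤ 1 := by
    rw [div_le_one hr0]
    linarith
  have h2 : (1 - x / r) * ((m : ℝ) * Real.sqrt r) ≤ a := by
    calc (1 - x / r) * ((m : ℝ) * Real.sqrt r) ≤ (1 - x / r) * ((1 + x / r) * a) :=
          mul_le_mul_of_nonneg_left h1 (by linarith)
      _ = (1 - x / r * (x / r)) * a := by ring
      _ ≤ 1 * a := by
          refine mul_le_mul_of_nonneg_right ?_ ha0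
          have := mul_nonneg hy0 hy0
          linarith
      _ = a := one_mul a
  refine le_trans ?_ h2
  have h3 : x / r * Real.sqrt r ≤ x := by
    rw [div_mul_eq_mul_div, div_le_iff₀ hr0]
    refine mul_le_mul_of_nonneg_left ?_ hx0.le
    calc Real.sqrt r = 1 * Real.sqrt r := (one_mul _).symm
      _ ≤ Real.sqrt r * Real.sqrt r := mul_le_mul_of_nonneg_right hs1 (Real.sqrt_nonneg _)
      _ = r := hss
  have h4 : x / r * Real.sqrt r * m ≤ x * m := mul_le_mul_of_nonneg_right h3 hm0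
  calc (Real.sqrt r - x) * m = m * Real.sqrt r - x * m := by ring
    _ ≤ m * Real.sqrt r - x / r * Real.sqrt r * m := by linarith
    _ = (1 - x / r) * ((m : ℝ) * Real.sqrt r) := by ring

end Pool.Agent.Results.MP_d0dfcd_ag.ExponentialPrecision
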